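import Mathlib
import Pool.Agent.Q35.HE.Main

/-!
The palindromic decomposition of the difference of the `h*`-polynomials of the symmetric edge
polytopes of `G` and `G \ ij`.
-/

namespace Pool.Agent.Results.MP_ee9925_co.EdgeDeletion

open Q35.HE Polynomial

/-- Let `G` be a graph on `n` vertices and `ij` an edge such that `G \ ij` is connected (for example
`G` 2-connected), and let `Γ` be a triangulation of the union of the facets of `P_{G \ ij}` visible
from `e_i - e_j` into lattice simplices. Then
`h*_{P_G} - h*_{P_{G \ ij}} = 2 t ∑_s q_s(t)` with `q_s = D_s (1 + t + ... + t^(h_s - 1))`,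
every `q_s` has nonnegative coefficients, and `2 t q_s(t)` is palindromic with center
`d / 2 = (n - 1) / 2`. The sum runs over the distinct values `c = h_s` of the lattice distance. -/
theorem result {n : ℕ} (G : SimpleGraph (Fin n)) (i j : Fin n) (hij : G.Adj i j)
    (hconn : (G.deleteEdges {s(i, j)}).Connected) (Γ : Finset (Finset (Fin n → ℝ)))
    (hΓ : IsTriangulation (SEP (G.deleteEdges {s(i, j)})) (ee ℝ i j) Γ) :
    hstar (n - 1) (SEP G) - hstar (n - 1) (SEP (G.deleteEdges {s(i, j)})) =
      ((2 * X * ∑ c ∈ Γ.image (latDist (ee ℤ i j)), qq (ee ℤ i j) Γ c : ℤ[X]) :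
        PowerSeries ℤ) ∧
    ∀ c ∈ Γ.image (latDist (ee ℤ i j)), (∀ k, 0 ≤ (qq (ee ℤ i j) Γ c).coeff k) ∧
      IsPalindromic (n - 1) (2 * X * qq (ee ℤ i j) Γ c) :=
  main_thm hij hconn Γ hΓ

end Pool.Agent.Results.MP_ee9925_co.EdgeDeletion
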